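import Pool.Agent.W896.FD.Sum3

/-!
# 3SUM (three numbers with the sum zero), and circuits of small formal degree
-/

set_option autoImplicit false
set_option maxHeartbeats 1000000

open Finset

namespace Pool.Agent.Q184.TS.FD

open Pool.Agent.W896.RK Pool.Agent.W896.HP Pool.Agent.W896.FD Pool.Agent.W896.FD.Star
open Pool.Agent.W896.FD.Tri (Mt mt_ne mt_symm mt_unique grS_0 grS_2)
open Pool.Agent.W896.FD.OV (pt pt_eq pt_other pt_inj)
open Pool.Agent.W896.FD.Sum3 (val hf fr3 lb nu cls nu_le nu_inj)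

variable {n m b w : ℕ}

/-- `n` different integers in `[-n ^ 4, n ^ 4]`. -/
def Valid (x : Fin n × Option (Fin w) → Bool) : Prop :=
  (∀ i, |val x i| ≤ (n : ℤ) ^ 4) ∧ Function.Injective (val x)

/-- There are three different numbers with the sum zero. -/
def Yes (x : Fin n × Option (Fin w) → Bool) : Prop :=
  ∃ i j l : Fin n, i ≠ j ∧ i ≠ l ∧ j ≠ l ∧ val x i + val x j + val x l = 0

/-- The fixed bits. -/
noncomputable def tb (c : Fin b × Fin 4 ↪ Fin m) (ρ : Equiv.Perm (Fin m))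
    (v : Fin n × Option (Fin (w + 1))) : Bool :=
  match v.2 with
  | none => decide (v.1.val = 2 * m)
  | some j => (Nat.bit false (hf c ρ v.1.val)).testBit j.val

/-- The instance. -/
noncomputable def instz (n w : ℕ) (c : Fin b × Fin 4 ↪ Fin m) (ρ : Equiv.Perm (Fin m))
    (z z' : Fin b → Bool) : Fin n × Option (Fin (w + 1)) → Bool :=
  inI true (fr3 m) (fun ρ => tb c ρ) c ρ z z'

theorem instz_none (c : Fin b × Fin 4 ↪ Fin m) (ρ : Equiv.Perm (Fin m)) (z z' : Fin b → Bool)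
    (i : Fin n) : instz n w c ρ z z' (i, none) = decide (i.val = 2 * m) := by
  unfold instz inI fr3 tb
  rfl

theorem instz_some (c : Fin b × Fin 4 ↪ Fin m) (ρ : Equiv.Perm (Fin m)) (z z' : Fin b → Bool)
    (i : Fin n) (j : Fin (w + 1)) :
    instz n w c ρ z z' (i, some j) = (nu c ρ z z' i.val).testBit j.val := by
  unfold instz inI fr3 tb nu lb
  rcases eq_or_ne j 0 with rfl | hj
  · simp only [if_true, Fin.val_zero, Nat.testBit_bit_zero]
    by_cases h1 : i.val < m
    · simp only [h1, dif_pos]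
    · simp only [h1, dif_neg, not_false_eq_true]
      by_cases h2 : i.val < 2 * m
      · simp only [h2, dif_pos]
      · simp only [h2, dif_neg, not_false_eq_true]
  · simp only [hj, if_false]
    obtain ⟨j', hj'⟩ : ∃ j', j.val = j' + 1 := by
      refine ⟨j.val - 1, ?_⟩
      have : j.val ≠ 0 := fun h => hj (Fin.ext h)
      omega
    rw [hj', Nat.testBit_bit_succ, Nat.testBit_bit_succ]


theorem val_inst (c : Fin b × Fin 4 ↪ Fin m) (ρ : Equiv.Perm (Fin m)) (z z' : Fin b → Bool)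
    (i : Fin n) (hi : nu c ρ z z' i.val < 2 ^ (w + 1)) :
    val (instz n w c ρ z z') i =
      (if i.val = 2 * m then -1 else 1) * (nu c ρ z z' i.val : ℤ) := by
  unfold Pool.Agent.W896.FD.Sum3.val
  rw [instz_none]
  have h : (fun j => instz n w c ρ z z' (i, some j)) =
      fun j : Fin (w + 1) => (nu c ρ z z' i.val).testBit j.val := by
    funext j
    exact instz_some c ρ z z' i j
  rw [h, Nat.ofBits_testBit, Nat.mod_eq_of_lt hi]
  simp only [decide_eq_true_eq]

/-- The values of the numbers. -/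
theorem clz (hn : n ≤ 2 * m + 2) (hw : 16 * (8 * m + 8) < 2 ^ (w + 1))
    (c : Fin b × Fin 4 ↪ Fin m) (ρ : Equiv.Perm (Fin m))
    (z z' : Fin b → Bool) (i : Fin n) :
    (∃ v : Fin m, i.val = v.val ∧ val (instz n w c ρ z z') i = 8 * m + 8 + 4 * v.val +
      ((grS true c z z' (ρ.symm v)).toNat : ℤ)) ∨
    (∃ v : Fin m, i.val = m + v.val ∧ val (instz n w c ρ z z') i = 3 * (8 * m + 8) +
      4 * (m - ((pt c ρ v).val : ℤ)) + ((grS true c z z' (ρ.symm v)).toNat : ℤ)) ∨
    (i.val = 2 * m ∧ val (instz n w c ρ z z') i = -(4 * (8 * m + 8) + 4 * m + 2)) ∨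
    (i.val = 2 * m + 1 ∧ val (instz n w c ρ z z') i = 16 * (8 * m + 8)) := by
  have hv := val_inst (w := w) c ρ z z' i ((nu_le hn c ρ z z' i).2.trans_lt hw)
  rcases cls hn c ρ z z' i with ⟨v, h1, h2⟩ | ⟨v, h1, h2⟩ | ⟨h1, h2⟩ | ⟨h1, h2⟩
  · have := v.isLt
    refine Or.inl ⟨v, h1, ?_⟩
    rw [hv, if_neg (by omega), h2]
    push_cast
    ring
  · have := v.isLt
    have h3 := (pt c ρ v).isLt
    refine Or.inr (Or.inl ⟨v, h1, ?_⟩)
    rw [hv, if_neg (by omega), h2]
    push_cast [Nat.cast_sub h3.le]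
    ring
  · refine Or.inr (Or.inr (Or.inl ⟨h1, ?_⟩))
    rw [hv, if_pos h1, h2]
    push_cast
    ring
  · refine Or.inr (Or.inr (Or.inr ⟨h1, ?_⟩))
    rw [hv, if_neg (by omega), h2]
    push_cast
    ring

/-- Only a pair of partners with the last bits one has the right sum. -/
theorem keyz (hn : n ≤ 2 * m + 2) (hw : 16 * (8 * m + 8) < 2 ^ (w + 1))
    (c : Fin b × Fin 4 ↪ Fin m) (ρ : Equiv.Perm (Fin m))
    (z z' : Fin b → Bool) {i j l : Fin n} (hij : i ≠ j) (hil : i ≠ l) (hjl : j ≠ l)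
    (h : val (instz n w c ρ z z') i + val (instz n w c ρ z z') j +
      val (instz n w c ρ z z') l = 0) :
    ∃ v : Fin m, grS true c z z' (ρ.symm v) = true ∧
      grS true c z z' (ρ.symm (pt c ρ v)) = true := by
  have hij' : i.val ≠ j.val := fun h => hij (Fin.ext h)
  have hil' : i.val ≠ l.val := fun h => hil (Fin.ext h)
  have hjl' : j.val ≠ l.val := fun h => hjl (Fin.ext h)
  have main : ∀ v u : Fin m, 4 * (v.val : ℤ) + ((grS true c z z' (ρ.symm v)).toNat : ℤ) +
      (4 * (m - ((pt c ρ u).val : ℤ)) + ((grS true c z z' (ρ.symm u)).toNat : ℤ)) = 4 * m + 2 →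
      ∃ v : Fin m, grS true c z z' (ρ.symm v) = true ∧
      grS true c z z' (ρ.symm (pt c ρ v)) = true := by
    intro v u h1
    have h2 := (pt c ρ u).isLt
    refine ⟨u, ?_⟩
    cases h3 : grS true c z z' (ρ.symm v) <;> cases h4 : grS true c z z' (ρ.symm u) <;>
      rw [h3, h4] at h1 <;> simp only [Bool.toNat_true, Bool.toNat_false] at h1
    · omega
    · omega
    · omega
    · have h5 : (pt c ρ u).val = v.val := by omega
      rw [Fin.ext h5]
      exact ⟨rfl, h3⟩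
  have bd : ∀ v : Fin m, ((grS true c z z' (ρ.symm v)).toNat : ℤ) ≤ 1 ∧ True := by
    intro v
    have h1 := Bool.toNat_le (grS true c z z' (ρ.symm v))
    exact ⟨by exact_mod_cast h1, trivial⟩
  have clz' : ∀ i : Fin n,
      (∃ v : Fin m, i.val = v.val ∧ val (instz n w c ρ z z') i = 8 * m + 8 + 4 * v.val +
        ((grS true c z z' (ρ.symm v)).toNat : ℤ) ∧
        ((grS true c z z' (ρ.symm v)).toNat : ℤ) ≤ 1 ∧ v.val < m ∧ (pt c ρ v).val < m) ∨
      (∃ v : Fin m, i.val = m + v.val ∧ val (instz n w c ρ z z') i = 3 * (8 * m + 8) +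
        4 * (m - ((pt c ρ v).val : ℤ)) + ((grS true c z z' (ρ.symm v)).toNat : ℤ) ∧
        ((grS true c z z' (ρ.symm v)).toNat : ℤ) ≤ 1 ∧ v.val < m ∧ (pt c ρ v).val < m) ∨
      (i.val = 2 * m ∧ val (instz n w c ρ z z') i = -(4 * (8 * m + 8) + 4 * m + 2)) ∨
      (i.val = 2 * m + 1 ∧ val (instz n w c ρ z z') i = 16 * (8 * m + 8)) := by
    intro i
    rcases clz hn hw c ρ z z' i with ⟨v, h1, h2⟩ | ⟨v, h1, h2⟩ | h1 | h1
    · exact Or.inl ⟨v, h1, h2, (bd v).1, v.isLt, (pt c ρ v).isLt⟩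
    · exact Or.inr (Or.inl ⟨v, h1, h2, (bd v).1, v.isLt, (pt c ρ v).isLt⟩)
    · exact Or.inr (Or.inr (Or.inl h1))
    · exact Or.inr (Or.inr (Or.inr h1))
  rcases clz' i with ⟨v, hi, hi', p1, p2, p3⟩ | ⟨v, hi, hi', p1, p2, p3⟩ | ⟨hi, hi'⟩ | ⟨hi, hi'⟩ <;>
  rcases clz' j with ⟨u, hj, hj', q1, q2, q3⟩ | ⟨u, hj, hj', q1, q2, q3⟩ | ⟨hj, hj'⟩ | ⟨hj, hj'⟩ <;>
  rcases clz' l with ⟨t, hl, hl', r1, r2, r3⟩ | ⟨t, hl, hl', r1, r2, r3⟩ | ⟨hl, hl'⟩ | ⟨hl, hl'⟩ <;>
  rw [hi', hj', hl'] at h <;>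
  first
  | (exfalso; omega)
  | exact main v u (by linarith)
  | exact main u v (by linarith)
  | exact main v t (by linarith)
  | exact main t v (by linarith)
  | exact main u t (by linarith)
  | exact main t u (by linarith)

theorem noz (hn : n ≤ 2 * m + 2) (hw : 16 * (8 * m + 8) < 2 ^ (w + 1))
    (c : Fin b × Fin 4 ↪ Fin m) (ρ : Equiv.Perm (Fin m)) (z : Fin b → Bool) :
    ¬ Yes (instz n w c ρ z z) := by
  rintro ⟨i, j, l, hij, hil, hjl, h⟩
  obtain ⟨v, hv1, hv2⟩ := keyz hn hw c ρ z z hij hil hjl h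
  by_cases hv : ∃ u, Mt c ρ v u
  · obtain ⟨u, hu⟩ := hv
    rw [pt_eq hu] at hv2
    obtain ⟨q, ⟨e1, e2⟩ | ⟨e1, e2⟩⟩ := hu
    · rw [e1, Equiv.symm_apply_apply, grS_0] at hv1
      rw [e2, Equiv.symm_apply_apply, grS_2, hv1] at hv2
      exact Bool.noConfusion hv2
    · rw [e1, Equiv.symm_apply_apply, grS_2] at hv1
      rw [e2, Equiv.symm_apply_apply, grS_0] at hv2
      rw [hv2] at hv1
      exact Bool.noConfusion hv1
  · -- an unmatched position has the bit zero
    have h0 : grS true c z z (ρ.symm v) = false := by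
      unfold grS
      rw [fill_other]
      rintro (q | q) hq
      · apply hv
        refine ⟨ρ (c (q, 2)), q, Or.inl ⟨?_, rfl⟩⟩
        change c (q, 0) = ρ.symm v at hq
        rw [hq, Equiv.apply_symm_apply]
      · apply hv
        refine ⟨ρ (c (q, 0)), q, Or.inr ⟨?_, rfl⟩⟩
        change c (q, 2) = ρ.symm v at hq
        rw [hq, Equiv.apply_symm_apply]
    rw [h0] at hv1
    exact Bool.noConfusion hv1

theorem yesz (hn1 : 2 * m + 1 ≤ n) (hn : n ≤ 2 * m + 2) (hw : 16 * (8 * m + 8) < 2 ^ (w + 1))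
    (c : Fin b × Fin 4 ↪ Fin m) (ρ : Equiv.Perm (Fin m)) (z z' : Fin b → Bool) {q : Fin b}
    (hz : z q = true) (hz' : z' q = false) : Yes (instz n w c ρ z z') := by
  obtain ⟨v, hv⟩ : ∃ v, v = ρ (c (q, 0)) := ⟨_, rfl⟩
  obtain ⟨u, hu⟩ : ∃ u, u = ρ (c (q, 2)) := ⟨_, rfl⟩
  have hp : pt c ρ u = v := pt_eq ⟨q, Or.inr ⟨hu, hv⟩⟩
  have hgv : grS true c z z' (ρ.symm v) = true := by
    rw [hv, Equiv.symm_apply_apply, grS_0, hz]
  have hgu : grS true c z z' (ρ.symm u) = true := by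
    rw [hu, Equiv.symm_apply_apply, grS_2, hz']; rfl
  have h1 := v.isLt
  have h2 := u.isLt
  refine ⟨⟨v.val, by omega⟩, ⟨m + u.val, by omega⟩, ⟨2 * m, by omega⟩, ?_, ?_, ?_, ?_⟩
  · intro h; have := congrArg Fin.val h; simp only at this; omega
  · intro h; have := congrArg Fin.val h; simp only at this; omega
  · intro h; have := congrArg Fin.val h; simp only at this; omega
  have e1 : val (instz n w c ρ z z') ⟨v.val, by omega⟩ = 8 * m + 8 + 4 * (v.val : ℤ) + 1 := by
    rcases clz hn hw c ρ z z' ⟨v.val, by omega⟩ with ⟨t, ht, h⟩ | ⟨t, ht, h⟩ | ⟨ht, h⟩ | ⟨ht, h⟩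
    · simp only at ht h
      rw [← Fin.ext ht, hgv] at h
      rw [h]; rfl
    · simp only at ht; omega
    · simp only at ht; omega
    · simp only at ht; omega
  have e2 : val (instz n w c ρ z z') ⟨m + u.val, by omega⟩ =
      3 * (8 * m + 8) + 4 * (m - (v.val : ℤ)) + 1 := by
    rcases clz hn hw c ρ z z' ⟨m + u.val, by omega⟩ with
      ⟨t, ht, h⟩ | ⟨t, ht, h⟩ | ⟨ht, h⟩ | ⟨ht, h⟩
    · simp only at ht; have := t.isLt; omega
    · simp only at ht h
      have ht' : u.val = t.val := by omega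
      rw [← Fin.ext ht', hgu, hp] at h
      rw [h]; rfl
    · simp only at ht; omega
    · simp only at ht; omega
  have e3 : val (instz n w c ρ z z') ⟨2 * m, by omega⟩ = -(4 * (8 * m + 8) + 4 * m + 2) := by
    rcases clz hn hw c ρ z z' ⟨2 * m, by omega⟩ with ⟨t, ht, h⟩ | ⟨t, ht, h⟩ | ⟨ht, h⟩ | ⟨ht, h⟩
    · simp only at ht; have := t.isLt; omega
    · simp only at ht; have := t.isLt; omega
    · exact h
    · simp only at ht; omega
  rw [e1, e2, e3]
  ring

theorem validz (hn : n ≤ 2 * m + 2) (hw : 16 * (8 * m + 8) < 2 ^ (w + 1))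
    (hn3 : 16 * (8 * m + 8) ≤ n ^ 4)
    (c : Fin b × Fin 4 ↪ Fin m) (ρ : Equiv.Perm (Fin m)) (z z' : Fin b → Bool) :
    Valid (instz n w c ρ z z') := by
  have hv : ∀ i, val (instz n w c ρ z z') i =
      (if i.val = 2 * m then -1 else 1) * (nu c ρ z z' i.val : ℤ) := fun i =>
    val_inst c ρ z z' i ((nu_le hn c ρ z z' i).2.trans_lt hw)
  have habs : ∀ i, |val (instz n w c ρ z z') i| = (nu c ρ z z' i.val : ℤ) := by
    intro i
    rw [hv, abs_mul, abs_of_nonneg (by positivity : (0 : ℤ) ≤ (nu c ρ z z' i.val : ℤ))]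
    split_ifs <;> simp
  constructor
  · intro i
    rw [habs]
    have := (nu_le hn c ρ z z' i).2.trans hn3
    exact_mod_cast this
  · intro i j h
    have h1 := habs i
    rw [h, habs j] at h1
    exact nu_inj hn c ρ z z' (by exact_mod_cast h1.symm)

/-- **3SUM.** -/
theorem sumz (k n w : ℕ) (hw : n ^ 4 < 2 ^ (w + 1))
    (R : Type) [Fintype R] [Nonempty R] (U : R → Circ (Fin n × Option (Fin (w + 1))))
    (hU : ∀ r x, Valid x → (U r).Val x (U r).out → ¬ Yes x)
    (hc : ∀ x, Valid x → ¬ Yes x →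
      Nat.card R ≤ 2 ^ (n / 2 ^ (240 * (k + 1))) * Nat.card {r // (U r).Val x (U r).out})
    (hdeg : ∀ r, ∃ f : (U r).G → Fin n × Option (Fin (w + 1)) → ℕ, IsDeg (U r) id f ∧
      ∑ i, f (U r).out (i, some 0) ≤ k * n) :
    ∃ r, n ≤ 2 ^ (240 * (k + 1)) * (Nat.log 2 (Fintype.card (U r).G) + 1) := by
  classical
  obtain ⟨D, hD⟩ : ∃ D, D = 2 ^ (240 * (k + 1)) := ⟨_, rfl⟩
  obtain ⟨E, hE⟩ : ∃ E, E = 2 ^ (60 * (4 * k + 1)) := ⟨_, rfl⟩
  have hDE : D = 2 ^ 180 * E := by
    rw [hD, hE, ← pow_add]; congr 1; ring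
  have hE1 : 1 ≤ E := by rw [hE]; exact Nat.one_le_two_pow
  have hDbig : 2 ^ 180 ≤ D := by rw [hDE]; exact Nat.le_mul_of_pos_right _ hE1
  rw [← hD] at hc ⊢
  rcases Nat.lt_or_ge n D with hnD | hnD
  · obtain ⟨r⟩ := (inferInstance : Nonempty R)
    exact ⟨r, hnD.le.trans (Nat.le_mul_of_pos_right _ (by omega))⟩
  obtain ⟨m, hm⟩ : ∃ m, m = (n - 1) / 2 := ⟨_, rfl⟩
  have hn1 : 2 * m + 1 ≤ n := by omega
  have hn : n ≤ 2 * m + 2 := by omega
  have hn4 : n ≤ 4 * m := by omega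
  obtain ⟨b, hb⟩ : ∃ b, b = m / 4 := ⟨_, rfl⟩
  have hb1 : m < 4 * (b + 1) := by rw [hb]; exact Nat.lt_mul_div_succ m (by norm_num)
  have hb2 : 4 * b ≤ m := by rw [hb]; exact Nat.mul_div_le _ _
  obtain ⟨c⟩ : Nonempty (Fin b × Fin 4 ↪ Fin m) := by
    apply Function.Embedding.nonempty_of_card_le
    rw [Fintype.card_prod, Fintype.card_fin, Fintype.card_fin, Fintype.card_fin]
    omega
  have hn3 : 16 * (8 * m + 8) ≤ n ^ 4 := by
    have h1 : 16 * (8 * m + 8) ≤ 2 ^ 10 * n := by omega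
    have h2 : 2 ^ 10 ≤ n := by omega
    calc 16 * (8 * m + 8) ≤ 2 ^ 10 * n := h1
      _ ≤ n * n := Nat.mul_le_mul_right _ h2
      _ = n ^ 2 := by ring
      _ ≤ n ^ 4 := Nat.pow_le_pow_right (by omega) (by norm_num)
  have hw' : 16 * (8 * m + 8) < 2 ^ (w + 1) := hn3.trans_lt hw
  have hdiv : n / D ≤ m / E := by
    rw [Nat.le_div_iff_mul_le (by omega)]
    have h1 : n / D * D ≤ n := Nat.div_mul_le_self _ _
    rw [hDE] at h1
    have h2 : n / D * (2 ^ 180 * E) = 2 ^ 180 * (n / D * E) := by ring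
    rw [hDE] at h2 ⊢
    rw [h2] at h1
    omega
  obtain ⟨r, hr⟩ := finalI (ν := true) (4 * k) (n := m) (b := b) (by omega) (fr3 m)
    (fun ρ => tb c ρ) c
    (fun ρ z z' => ¬ Yes (instz n w c ρ z z')) 0 (by
      rw [vol_zero]
      exact Nat.one_le_two_pow) (by
      rintro ρ z z' h ⟨e1, e2⟩
      unfold dst at h
      obtain ⟨i, hi⟩ := card_pos.1 h
      have hi' := (mem_filter.1 hi).2
      cases hz : z i with
      | true =>
        cases hz' : z' i with
        | true => exact hi' (by rw [hz, hz'])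
        | false => exact e1 (yesz hn1 hn hw' c ρ z z' hz hz')
      | false =>
        cases hz' : z' i with
        | true => exact e2 (yesz hn1 hn hw' c ρ z' z hz' hz)
        | false => exact hi' (by rw [hz, hz'])) R U (by
      intro r ρ z z' h
      exact hU r _ (validz hn hw' hn3 c ρ z z') h) (by
      intro ρ z
      refine (hc _ (validz hn hw' hn3 c ρ z z) (noz hn hw' c ρ z)).trans
        (Nat.mul_le_mul_right _ (Nat.pow_le_pow_right (by norm_num) ?_))
      rw [← hE]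
      exact hdiv) (by
      intro r
      obtain ⟨f, hf1, hf2⟩ := hdeg r
      refine ⟨f, hf1, ?_⟩
      calc ∑ v with fr3 (w := w) (n := n) m v ≠ none, f (U r).out v ≤
          ∑ v ∈ (univ : Finset (Fin n)).image (fun i => (i, some (0 : Fin (w + 1)))),
            f (U r).out v := by
            apply sum_le_sum_of_subset
            rintro ⟨i, j⟩ hv
            rw [mem_filter] at hv
            rw [mem_image]
            refine ⟨i, mem_univ _, ?_⟩
            have h1 := hv.2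
            unfold fr3 at h1
            cases j with
            | none => exact absurd rfl h1
            | some j =>
              simp only at h1
              by_cases hj : j = 0
              · rw [hj]
              · rw [if_neg hj] at h1
                exact absurd rfl h1
        _ = ∑ i, f (U r).out (i, some 0) := sum_image (by
            intro i _ j _ h
            exact (Prod.mk.injEq _ _ _ _ ▸ h).1)
        _ ≤ k * n := hf2
        _ ≤ k * (4 * m) := Nat.mul_le_mul_left _ hn4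
        _ = 4 * k * m := by ring)
  refine ⟨r, ?_⟩
  rw [← hE] at hr
  calc n ≤ 4 * m := hn4
    _ ≤ 4 * (E * (Nat.log 2 (Fintype.card (U r).G) + 1)) := Nat.mul_le_mul_left _ hr
    _ = 4 * E * (Nat.log 2 (Fintype.card (U r).G) + 1) := by ring
    _ ≤ D * (Nat.log 2 (Fintype.card (U r).G) + 1) := by
        apply Nat.mul_le_mul_right
        rw [hDE]
        exact Nat.mul_le_mul_right _ (by norm_num)

end Pool.Agent.Q184.TS.FD
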