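import Pool.Agent.Y638.RF.Prog
import Pool.Agent.TH457.Ary.ThreeSum

set_option autoImplicit false

/-! # 3SUM (one number is the sum of two others) and real formulas -/

namespace Pool.Agent.Q184.TS.RF

open Finset Pool.Agent.TH697.Form Pool.Agent.TH697.Row Pool.Agent.TH697.Form.ThreeSum
open Pool.Agent.TH457.Ary.ThreeSum Pool.Agent.Y638.RF

variable {n b c w : ℕ}

theorem asks (hb : 2 * (b * 2 ^ b) ≤ n) (hn : 400 ≤ n) (i : Fin n) :
    Asks (Fin (n / 2) × Fin b) (n ^ 2) 0 (Valid n n) (threeSum n n) (some i) := by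
  classical
  refine ⟨(univ : Finset (Fin (n / 2) × Fin b)).image (fun t => ask n t), fun _ => 0,
    fun t _ => ask n t, enc, ?_, ?_, ?_, ?_, ?_⟩
  · refine card_image_le.trans ?_
    rw [card_univ, Fintype.card_prod, Fintype.card_fin, Fintype.card_fin, pow_two]
    apply Nat.mul_le_mul (by omega)
    have h1 : b < 2 ^ b := Nat.lt_two_pow_self
    have h2 : 1 ≤ 2 ^ b := Nat.one_le_two_pow
    have h3 : b * 1 ≤ b * 2 ^ b := Nat.mul_le_mul_left _ h2
    omega
  · intro t z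
    exact mem_image_of_mem _ (mem_univ t)
  · intro t z z' _
    rfl
  · intro t z
    exact valid_inp i t z hb (by omega)
  · have h : ∀ (t : Fin (n / 2) × Fin b) (z : Fin (n / 2) × Fin b → Bool),
        threeSum n n (Function.update (enc z) (some i) (ask n t)) = z t :=
      fun t z => threeSum_inp i t z hb
    simp only [h, ne_eq, not_true_eq_false, filter_false, card_empty]
    simp

/-- the arithmetic -/
theorem arith {n g c w N L l s : ℝ} (hn : 400 ≤ n) (hg : 8 ≤ g) (hc : 1 ≤ c) (hw : 1 ≤ w)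
    (hN : n * g / 7 ≤ N) (hl : l ≤ 9 / 8 * g) (hL : L ≤ 4 / 3 * c * g) (hs : 0 ≤ s)
    (h : n * ((49 / 600 - 0) * N - 1) ≤ 2 * w * (1 + 5 * (5 * l) + (w - 1) * L) * s) :
    n ^ 2 ≤ 6000 * c * w ^ 2 * s := by
  have h1 : n * g / 100 ≤ (49 / 600 - 0) * N - 1 := by nlinarith
  have h2 : n * (n * g / 100) ≤ n * ((49 / 600 - 0) * N - 1) :=
    mul_le_mul_of_nonneg_left h1 (by linarith)
  have h3 : 2 * w * (1 + 5 * (5 * l) + (w - 1) * L) ≤ 60 * c * g * w ^ 2 := by
    have h4 : (w - 1) * L ≤ (w - 1) * (4 / 3 * c * g) := mul_le_mul_of_nonneg_left hL (by linarith)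
    have h5 : 1 + 5 * (5 * l) ≤ 30 * g := by linarith
    have h6 : g ≤ c * g := by nlinarith
    have h7 : 0 ≤ (w - 1) * (c * g) := by
      apply mul_nonneg (by linarith)
      positivity
    calc 2 * w * (1 + 5 * (5 * l) + (w - 1) * L) ≤ 2 * w * (30 * c * g * w) := by
          apply mul_le_mul_of_nonneg_left _ (by linarith)
          nlinarith
      _ = _ := by ring
  have h4 := mul_le_mul_of_nonneg_right h3 hs
  have h5 : g * n ^ 2 ≤ g * (6000 * c * w ^ 2 * s) := by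
    have e1 : n * (n * g / 100) = g * n ^ 2 / 100 := by ring
    have e2 : 60 * c * g * w ^ 2 * s = g * (6000 * c * w ^ 2 * s) / 100 := by ring
    rw [e1] at h2
    rw [e2] at h4
    linarith
  exact le_of_mul_le_mul_left h5 (by linarith)

theorem lower (hn : 400 ≤ n) (hc : 1 ≤ c) (hw : 1 ≤ w) {Ω : Type} [Fintype Ω] (μ : Ω → ℝ)
    (hμ : IsProb μ) (s : ℕ) (F : Ω → Fml (Option (Fin n)) (Item n n) w ((2 * n) ^ c))
    (hs : ∀ ω, (F ω).size ≤ s)
    (hF : ApproximatesOn μ (fun ω => (F ω).accepts) (Valid n n) (threeSum n n)) :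
    (n : ℝ) ^ 2 ≤ 6000 * c * w ^ 2 * s := by
  classical
  have hw' : (1 : ℝ) ≤ w := by exact_mod_cast hw
  have hc' : (1 : ℝ) ≤ c := by exact_mod_cast hc
  have hs0 : (0 : ℝ) ≤ s := Nat.cast_nonneg s
  by_cases hsn : n ^ 2 ≤ s
  · have h1 : (n : ℝ) ^ 2 ≤ s := by exact_mod_cast hsn
    have h2 : (1 : ℝ) ≤ w ^ 2 := by nlinarith
    have h3 : (1 : ℝ) ≤ c * w ^ 2 := by nlinarith
    nlinarith
  obtain ⟨b, hb, hL, hb2⟩ := params hn
  have hM : 4 * n ^ 2 * (2 * s + 1) + 2 + s ≤ n ^ 5 := by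
    have h1 : s < n ^ 2 := by omega
    have h2 : 4 * n ^ 2 * (2 * s + 1) ≤ 4 * n ^ 2 * (2 * n ^ 2) := Nat.mul_le_mul_left _ (by omega)
    have h3 : 4 * n ^ 2 * (2 * n ^ 2) = 8 * n ^ 4 := by ring
    have h4 : n ^ 2 ≤ n ^ 4 := Nat.pow_le_pow_right (by omega) (by norm_num)
    have h5 : 16 * n ^ 4 ≤ n ^ 5 := by
      calc 16 * n ^ 4 ≤ n * n ^ 4 := Nat.mul_le_mul_right _ (by omega)
        _ = n ^ 5 := by ring
    have h6 : 1 ≤ n ^ 4 := Nat.one_le_pow _ _ (by omega)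
    omega
  have h := formula_lower μ hμ F (Valid n n) (threeSum n n) hF s hs
    (Nat.one_le_pow _ _ (by omega)) hw (n ^ 2) (n ^ 5) hM 0
    ((univ : Finset (Fin n)).map Function.Embedding.some) (T := Fin (n / 2) × Fin b) (by
      intro a ha
      rw [mem_map] at ha
      obtain ⟨i, -, rfl⟩ := ha
      exact asks hb hn i)
  rw [card_map, card_univ, Fintype.card_fin, Nat.cast_pow n 5, Real.logb_pow] at h
  push_cast at h
  refine arith (l := Real.logb 2 n) (L := Real.logb 2 (((2 * n) ^ c : ℕ) : ℝ))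
    (g := Nat.log 2 n) (N := ((Fintype.card (Fin (n / 2) × Fin b) : ℕ) : ℝ))
    (by exact_mod_cast hn) (by exact_mod_cast hL) hc' hw' (card_T hn hb2) ?_
    (logb_q (by omega) hL) hs0 ?_
  · have h1 := logb_n (n := n) (by omega)
    have hL' : (8 : ℝ) ≤ Nat.log 2 n := by exact_mod_cast hL
    linarith
  · push_cast
    exact h

/-- the arithmetic for programs -/
theorem arith_program {n g c w N L l s : ℝ} (hn : 1000 ≤ n) (hg : 8 ≤ g) (hc : 1 ≤ c) (hw : 1 ≤ w)
    (hN : n * g / 7 ≤ N) (hl : l ≤ 9 / 8 * g) (hL : L ≤ 4 / 3 * c * g) (hs : 0 ≤ s)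
    (h : n * ((49 / 600 - 0) * N - 5 * l) ≤ w * (3 + 12 * (5 * l) + 2 * (w - 1) * L) * s) :
    n ^ 2 ≤ 14000 * c * w ^ 2 * s := by
  have h0 : 1000 * g ≤ n * g := mul_le_mul_of_nonneg_right hn (by linarith)
  have h1 : n * g / 200 ≤ (49 / 600 - 0) * N - 5 * l := by linarith
  have h2 : n * (n * g / 200) ≤ n * ((49 / 600 - 0) * N - 5 * l) :=
    mul_le_mul_of_nonneg_left h1 (by linarith)
  have h3 : w * (3 + 12 * (5 * l) + 2 * (w - 1) * L) ≤ 70 * c * g * w ^ 2 := by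
    have h4 : (w - 1) * L ≤ (w - 1) * (4 / 3 * c * g) := mul_le_mul_of_nonneg_left hL (by linarith)
    have h5 : 3 + 12 * (5 * l) ≤ 68 * g := by linarith
    have h6 : g ≤ c * g := by nlinarith
    have h7 : 0 ≤ (w - 1) * (c * g) := by
      apply mul_nonneg (by linarith)
      positivity
    calc w * (3 + 12 * (5 * l) + 2 * (w - 1) * L) ≤ w * (70 * c * g * w) := by
          apply mul_le_mul_of_nonneg_left _ (by linarith)
          nlinarith
      _ = _ := by ring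
  have h4 := mul_le_mul_of_nonneg_right h3 hs
  have h5 : g * n ^ 2 ≤ g * (14000 * c * w ^ 2 * s) := by
    have e1 : n * (n * g / 200) = g * n ^ 2 / 200 := by ring
    have e2 : 70 * c * g * w ^ 2 * s = g * (14000 * c * w ^ 2 * s) / 200 := by ring
    rw [e1] at h2
    rw [e2] at h4
    linarith
  exact le_of_mul_le_mul_left h5 (by linarith)

theorem program_bound (hn : 1000 ≤ n) (hc : 1 ≤ c) (hw : 1 ≤ w) {Ω : Type} [Fintype Ω] (μ : Ω → ℝ)
    (hμ : IsProb μ) (s : ℕ) (F : Ω → Program (Option (Fin n)) (Item n n) w ((2 * n) ^ c) s)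
    (hF : ApproximatesOn μ (fun ω => (F ω).eval) (Valid n n) (threeSum n n)) :
    (n : ℝ) ^ 2 ≤ 14000 * c * w ^ 2 * s := by
  classical
  have hw' : (1 : ℝ) ≤ w := by exact_mod_cast hw
  have hc' : (1 : ℝ) ≤ c := by exact_mod_cast hc
  have hs0 : (0 : ℝ) ≤ s := Nat.cast_nonneg s
  by_cases hsn : n ^ 2 ≤ s
  · have h1 : (n : ℝ) ^ 2 ≤ s := by exact_mod_cast hsn
    have h2 : (1 : ℝ) ≤ w ^ 2 := by nlinarith
    have h3 : (1 : ℝ) ≤ c * w ^ 2 := by nlinarith
    nlinarith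
  obtain ⟨b, hb, hL, hb2⟩ := params (n := n) (by omega)
  have hM : 4 * n ^ 2 * (2 * s + 1) + 2 + s ≤ n ^ 5 := by
    have h1 : s < n ^ 2 := by omega
    have h2 : 4 * n ^ 2 * (2 * s + 1) ≤ 4 * n ^ 2 * (2 * n ^ 2) := Nat.mul_le_mul_left _ (by omega)
    have h3 : 4 * n ^ 2 * (2 * n ^ 2) = 8 * n ^ 4 := by ring
    have h4 : n ^ 2 ≤ n ^ 4 := Nat.pow_le_pow_right (by omega) (by norm_num)
    have h5 : 16 * n ^ 4 ≤ n ^ 5 := by
      calc 16 * n ^ 4 ≤ n * n ^ 4 := Nat.mul_le_mul_right _ (by omega)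
        _ = n ^ 5 := by ring
    have h6 : 1 ≤ n ^ 4 := Nat.one_le_pow _ _ (by omega)
    omega
  have h := program_lower μ hμ s F (Valid n n) (threeSum n n) hF
    (Nat.one_le_pow _ _ (by omega)) hw (n ^ 2) (n ^ 5) hM 0
    ((univ : Finset (Fin n)).map Function.Embedding.some) (T := Fin (n / 2) × Fin b) (by
      intro a ha
      rw [mem_map] at ha
      obtain ⟨i, -, rfl⟩ := ha
      exact asks hb (by omega) i)
  rw [card_map, card_univ, Fintype.card_fin, Nat.cast_pow n 5] at h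
  rw [Real.logb_pow] at h
  push_cast at h
  refine arith_program (l := Real.logb 2 n) (L := Real.logb 2 (((2 * n) ^ c : ℕ) : ℝ))
    (g := Nat.log 2 n) (N := ((Fintype.card (Fin (n / 2) × Fin b) : ℕ) : ℝ))
    (by exact_mod_cast hn) (by exact_mod_cast hL) hc' hw' (card_T (by omega) hb2) ?_
    (logb_q (by omega) hL) hs0 ?_
  · have h1 := logb_n (n := n) (by omega)
    have hL' : (8 : ℝ) ≤ Nat.log 2 n := by exact_mod_cast hL
    linarith
  · push_cast
    exact h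

end Pool.Agent.Q184.TS.RF
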