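import Pool.Agent.TH457.HT.Gen3
import Pool.Agent.TH457.HT.ZDefs

/-!
# Slow heads and 3SUM in the form `a + b = c`
-/

set_option autoImplicit false

open Finset

namespace Pool.Agent.Q184.TS.SH

open Pool.Agent.TH457.HT

/-- one of the numbers is the sum of two others -/
def HasSum {N : ℕ} (x : Fin N → ℤ) : Prop :=
  ∃ i j k : Fin N, i ≠ j ∧ i ≠ k ∧ j ≠ k ∧ x i + x j = x k

/-- the numbers of the instance, from the values `u j` of the blocks -/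
def inst (N m : ℕ) (u : ℕ → ℕ) (a : ℕ) : ℤ :=
  if a < 3 * m then
    if a % 3 = 0 then
      3 * (4 * ((N / 3 : ℕ) : ℤ) ^ 3) + 3 * ((N / 3 : ℕ) : ℤ)
        + (u (a / 3) * (2 * (N / 3)) + a / 3 : ℕ)
    else if a % 3 = 1 then
      2 * (4 * ((N / 3 : ℕ) : ℤ) ^ 3) + 3 * ((N / 3 : ℕ) : ℤ)
        + (u (a / 3) * (2 * (N / 3)) + a / 3 : ℕ)
    else 4 * ((N / 3 : ℕ) : ℤ) ^ 3 + (a / 3 + 1 : ℕ)
  else -((N : ℤ) ^ 3 - (a : ℕ))

/-- the four kinds of numbers -/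
theorem inst_cases (N m : ℕ) (u : ℕ → ℕ) (hm : m < N / 3)
    (hu : ∀ j < m, u j < 2 * (N / 3) ^ 2) (a : ℕ) (_ha : a < N) (K Y M : ℤ)
    (hK : K = (N : ℤ) ^ 3) (hY : Y = 4 * ((N / 3 : ℕ) : ℤ) ^ 3) (hM : M = ((N / 3 : ℕ) : ℤ)) :
    (∃ j y : ℕ, j < m ∧ a = 3 * j ∧ y = u j * (2 * (N / 3)) + j ∧ (y : ℤ) < Y ∧
      inst N m u a = 3 * Y + 3 * M + y) ∨
    (∃ j y : ℕ, j < m ∧ a = 3 * j + 1 ∧ y = u j * (2 * (N / 3)) + j ∧ (y : ℤ) < Y ∧
      inst N m u a = 2 * Y + 3 * M + y) ∨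
    (∃ t : ℕ, 1 ≤ t ∧ (t : ℤ) < M ∧ t ≤ m ∧ inst N m u a = Y + t ∧ a = 3 * (t - 1) + 2) ∨
    (∃ s : ℕ, s = a ∧ 3 * m ≤ a ∧ inst N m u a = -(K - s)) := by
  have hy : ∀ j < m, ((u j * (2 * (N / 3)) + j : ℕ) : ℤ) < Y := by
    intro j hj
    have h1 : u j + 1 ≤ 2 * (N / 3) ^ 2 := hu j hj
    have h2 : u j * (2 * (N / 3)) + j < 4 * (N / 3) ^ 3 := by
      calc u j * (2 * (N / 3)) + j < u j * (2 * (N / 3)) + 2 * (N / 3) := by omega
        _ = (u j + 1) * (2 * (N / 3)) := by ring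
        _ ≤ 2 * (N / 3) ^ 2 * (2 * (N / 3)) := Nat.mul_le_mul_right _ h1
        _ = 4 * (N / 3) ^ 3 := by ring
    rw [hY]
    exact_mod_cast h2
  have hmM : (m : ℤ) < M := by rw [hM]; exact_mod_cast hm
  unfold inst
  rw [← hK, ← hY, ← hM]
  by_cases h : a < 3 * m
  · rw [if_pos h]
    by_cases h0 : a % 3 = 0
    · rw [if_pos h0]
      left
      exact ⟨a / 3, _, by omega, by omega, rfl, hy _ (by omega), rfl⟩
    · rw [if_neg h0]
      by_cases h1 : a % 3 = 1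
      · rw [if_pos h1]
        right; left
        exact ⟨a / 3, _, by omega, by omega, rfl, hy _ (by omega), rfl⟩
      · rw [if_neg h1]
        right; right; left
        exact ⟨a / 3 + 1, by omega, by omega, by omega, rfl, by omega⟩
  · rw [if_neg h]
    right; right; right
    exact ⟨a, rfl, by omega, rfl⟩

/-- two values are equal if the difference of the numbers is small -/
theorem diff_small (M m : ℕ) (u : ℕ → ℕ) (hm : m < M) (i j t : ℕ) (hi : i < m)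
    (hj : j < m) (ht1 : 1 ≤ t) (ht : t ≤ m)
    (h : ((u i * (2 * M) + i : ℕ) : ℤ) - ((u j * (2 * M) + j : ℕ) : ℤ) = t) :
    i ≠ j ∧ u i = u j := by
  push_cast at h
  have hij1 : (i : ℤ) < m := by exact_mod_cast hi
  have hij2 : (j : ℤ) < m := by exact_mod_cast hj
  have hmN : (m : ℤ) < M := by exact_mod_cast hm
  have ht' : (t : ℤ) ≤ m := by exact_mod_cast ht
  have ht1' : (1 : ℤ) ≤ t := by exact_mod_cast ht1
  have h0 : (0 : ℤ) ≤ i := by positivity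
  have h0' : (0 : ℤ) ≤ j := by positivity
  have e : ((u i : ℤ) - u j) * (2 * M) = t - (i - j) := by linarith
  have hu : (u i : ℤ) - u j = 0 := by
    rcases lt_trichotomy ((u i : ℤ) - u j) 0 with hlt | heq | hgt
    · exfalso
      have h1 : (u i : ℤ) - u j ≤ -1 := by linarith
      have h2 : ((u i : ℤ) - u j) * (2 * M) ≤ -1 * (2 * M) :=
        mul_le_mul_of_nonneg_right h1 (by linarith)
      linarith
    · exact heq
    · exfalso
      have h1 : 1 ≤ (u i : ℤ) - u j := by linarith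
      have h2 : 1 * (2 * (M : ℤ)) ≤ ((u i : ℤ) - u j) * (2 * M) :=
        mul_le_mul_of_nonneg_right h1 (by linarith)
      linarith
  rw [hu, zero_mul] at e
  refine ⟨?_, ?_⟩
  · rintro rfl; linarith
  · have : (u i : ℤ) = u j := by linarith
    exact_mod_cast this

/-- the sizes -/
theorem sizes (N : ℕ) (hN : 15 ≤ N) (K Y M : ℤ)
    (hK : K = (N : ℤ) ^ 3) (hY : Y = 4 * ((N / 3 : ℕ) : ℤ) ^ 3) (hM : M = ((N / 3 : ℕ) : ℤ)) :
    5 ≤ M ∧ (N : ℤ) ≤ 3 * M + 2 ∧ 100 * M ≤ Y ∧ 6 * Y ≤ K := by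
  have h1 : 5 ≤ M := by rw [hM]; omega
  have h2 : (N : ℤ) ≤ 3 * M + 2 := by rw [hM]; omega
  have h3 : 3 * M ≤ N := by rw [hM]; omega
  refine ⟨h1, h2, ?_, ?_⟩
  · rw [hY, ← hM]
    have h4 : 25 ≤ M ^ 2 := by nlinarith
    nlinarith
  · have h4 : (3 * M) ^ 3 ≤ (N : ℤ) ^ 3 := pow_le_pow_left₀ (by linarith) h3 3
    have h5 : 0 ≤ M ^ 3 := by positivity
    rw [hK, hY, ← hM]
    nlinarith

/-- a solution gives two equal values -/
theorem eq_of_three (N m : ℕ) (u : ℕ → ℕ) (hN : 15 ≤ N) (hm : m < N / 3)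
    (hu : ∀ j < m, u j < 2 * (N / 3) ^ 2) (a b c : ℕ) (ha : a < N) (hb : b < N) (hc : c < N)
    (h : inst N m u a + inst N m u b = inst N m u c) :
    ∃ i j, i < m ∧ j < m ∧ i ≠ j ∧ u i = u j := by
  obtain ⟨K, hK⟩ : ∃ K : ℤ, K = (N : ℤ) ^ 3 := ⟨_, rfl⟩
  obtain ⟨Y, hY⟩ : ∃ Y : ℤ, Y = 4 * ((N / 3 : ℕ) : ℤ) ^ 3 := ⟨_, rfl⟩
  obtain ⟨M, hM⟩ : ∃ M : ℤ, M = ((N / 3 : ℕ) : ℤ) := ⟨_, rfl⟩
  obtain ⟨s1, s2, s3, s4⟩ := sizes N hN K Y M hK hY hM
  have key := diff_small (N / 3) m u hm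
  rcases inst_cases N m u hm hu a ha K Y M hK hY hM with ⟨j1, y1, hj1, -, hy1, hb1, e1⟩ |
    ⟨j1, y1, hj1, -, hy1, hb1, e1⟩ | ⟨t1, ht1, hb1, hc1, e1, -⟩ | ⟨r1, hr1, -, e1⟩ <;>
  rcases inst_cases N m u hm hu b hb K Y M hK hY hM with ⟨j2, y2, hj2, -, hy2, hb2, e2⟩ |
    ⟨j2, y2, hj2, -, hy2, hb2, e2⟩ | ⟨t2, ht2, hb2, hc2, e2, -⟩ | ⟨r2, hr2, -, e2⟩ <;>
  rcases inst_cases N m u hm hu c hc K Y M hK hY hM with ⟨j3, y3, hj3, -, hy3, hb3, e3⟩ |
    ⟨j3, y3, hj3, -, hy3, hb3, e3⟩ | ⟨t3, ht3, hb3, hc3, e3, -⟩ | ⟨r3, hr3, -, e3⟩ <;>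
  rw [e1, e2, e3] at h <;>
  clear hK hY hM e1 e2 e3 <;>
  first
  | (exfalso; omega)
  | exact ⟨j3, j2, hj3, hj2, key j3 j2 t1 hj3 hj2 ht1 hc1 (by rw [← hy3, ← hy2]; linarith)⟩
  | exact ⟨j3, j1, hj3, hj1, key j3 j1 t2 hj3 hj1 ht2 hc2 (by rw [← hy3, ← hy1]; linarith)⟩

/-- two equal values give a solution -/
theorem three_of_eq (N m : ℕ) (u : ℕ → ℕ) (i j : ℕ) (hij : i < j) (hj : j < m)
    (h : u i = u j) :
    inst N m u (3 * i + 1) + inst N m u (3 * (j - i - 1) + 2) = inst N m u (3 * j) := by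
  unfold inst
  rw [if_pos (by omega), if_neg (by omega), if_pos (by omega), if_pos (by omega),
    if_neg (by omega), if_neg (by omega), if_pos (by omega), if_pos (by omega)]
  have e1 : 3 * j / 3 = j := by omega
  have e2 : (3 * i + 1) / 3 = i := by omega
  have e3 : (3 * (j - i - 1) + 2) / 3 = j - i - 1 := by omega
  rw [e1, e2, e3, h]
  have e4 : ((j - i - 1 + 1 : ℕ) : ℤ) = (j : ℤ) - i := by
    rw [show j - i - 1 + 1 = j - i by omega]; omega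
  rw [e4]
  push_cast
  ring

/-- the numbers are distinct -/
theorem inst_inj (N m : ℕ) (u : ℕ → ℕ) (hN : 15 ≤ N) (hm : m < N / 3)
    (hu : ∀ j < m, u j < 2 * (N / 3) ^ 2) (a b : ℕ) (ha : a < N) (hb : b < N)
    (h : inst N m u a = inst N m u b) : a = b := by
  obtain ⟨K, hK⟩ : ∃ K : ℤ, K = (N : ℤ) ^ 3 := ⟨_, rfl⟩
  obtain ⟨Y, hY⟩ : ∃ Y : ℤ, Y = 4 * ((N / 3 : ℕ) : ℤ) ^ 3 := ⟨_, rfl⟩
  obtain ⟨M, hM⟩ : ∃ M : ℤ, M = ((N / 3 : ℕ) : ℤ) := ⟨_, rfl⟩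
  obtain ⟨s1, s2, s3, s4⟩ := sizes N hN K Y M hK hY hM
  have hinj : ∀ i j, i < m → j < m →
      u i * (2 * (N / 3)) + i = u j * (2 * (N / 3)) + j → i = j := by
    intro i j hi hj hij
    have h1 : (u i * (2 * (N / 3)) + i) % (2 * (N / 3)) = i := by
      rw [mul_comm, Nat.mul_add_mod, Nat.mod_eq_of_lt (by omega)]
    have h2 : (u j * (2 * (N / 3)) + j) % (2 * (N / 3)) = j := by
      rw [mul_comm, Nat.mul_add_mod, Nat.mod_eq_of_lt (by omega)]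
    rw [hij, h2] at h1
    exact h1.symm
  rcases inst_cases N m u hm hu a ha K Y M hK hY hM with ⟨j1, y1, hj1, ha1, hy1, hb1, e1⟩ |
    ⟨j1, y1, hj1, ha1, hy1, hb1, e1⟩ | ⟨t1, ht1, hb1, hc1, e1, ha1⟩ | ⟨r1, hr1, ha1, e1⟩ <;>
  rcases inst_cases N m u hm hu b hb K Y M hK hY hM with ⟨j2, y2, hj2, ha2, hy2, hb2, e2⟩ |
    ⟨j2, y2, hj2, ha2, hy2, hb2, e2⟩ | ⟨t2, ht2, hb2, hc2, e2, ha2⟩ | ⟨r2, hr2, ha2, e2⟩ <;>
  rw [e1, e2] at h <;>
  clear hK hY hM e1 e2 <;>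
  first
  | (exfalso; omega)
  | omega
  | (have h3 : y1 = y2 := by omega
     have h4 := hinj j1 j2 hj1 hj2 (by rw [← hy1, ← hy2]; exact h3)
     omega)

theorem inst_abs (N m : ℕ) (u : ℕ → ℕ) (hN : 15 ≤ N) (hm : m < N / 3)
    (hu : ∀ j < m, u j < 2 * (N / 3) ^ 2) (a : ℕ) (ha : a < N) :
    |inst N m u a| ≤ (N : ℤ) ^ 3 := by
  obtain ⟨K, hK⟩ : ∃ K : ℤ, K = (N : ℤ) ^ 3 := ⟨_, rfl⟩
  obtain ⟨Y, hY⟩ : ∃ Y : ℤ, Y = 4 * ((N / 3 : ℕ) : ℤ) ^ 3 := ⟨_, rfl⟩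
  obtain ⟨M, hM⟩ : ∃ M : ℤ, M = ((N / 3 : ℕ) : ℤ) := ⟨_, rfl⟩
  obtain ⟨s1, s2, s3, s4⟩ := sizes N hN K Y M hK hY hM
  rw [← hK]
  rcases inst_cases N m u hm hu a ha K Y M hK hY hM with ⟨j1, y1, hj1, -, hy1, hb1, e1⟩ |
    ⟨j1, y1, hj1, -, hy1, hb1, e1⟩ | ⟨t1, ht1, hb1, hc1, e1, -⟩ | ⟨r1, hr1, ha1, e1⟩ <;>
  rw [e1] <;>
  clear hK hY hM e1 <;>
  rw [abs_le] <;>
  constructor <;> omega

/-- the word -/
def ZW (N w m : ℕ) (v : Fin m → Fin (2 * (N / 3) ^ 2)) : Fin (N * (w + 1)) → Bool :=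
  zword N w (fun a => inst N m (fun j => if h : j < m then (v ⟨j, h⟩ : ℕ) else 0) a)

theorem ZW_local (N w m : ℕ) (v v' : Fin m → Fin (2 * (N / 3) ^ 2)) (p : Fin (N * (w + 1)))
    (h : ∀ h : (p : ℕ) / (3 * (w + 1)) < m,
      v ⟨(p : ℕ) / (3 * (w + 1)), h⟩ = v' ⟨(p : ℕ) / (3 * (w + 1)), h⟩) :
    ZW N w m v p = ZW N w m v' p := by
  unfold ZW zword
  congr 1
  dsimp only
  obtain ⟨a, ha⟩ : ∃ a, a = (p : ℕ) / (w + 1) := ⟨_, rfl⟩
  have e : (p : ℕ) / (3 * (w + 1)) = a / 3 := by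
    rw [ha, Nat.div_div_eq_div_mul]
    exact congrArg (fun z => (p : ℕ) / z) (mul_comm _ _)
  rw [← ha]
  unfold inst
  by_cases h1 : a < 3 * m
  · have h2 : a / 3 < m := by omega
    have h3 : v ⟨a / 3, h2⟩ = v' ⟨a / 3, h2⟩ := by
      have h4 := h (by rw [e]; exact h2)
      have h5 : (⟨(p : ℕ) / (3 * (w + 1)), by rw [e]; exact h2⟩ : Fin m) = ⟨a / 3, h2⟩ :=
        Fin.ext e
      rw [h5] at h4
      exact h4
    simp only [h2, dite_true, h3]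
  · rw [if_neg h1, if_neg h1]

section

variable (N w : ℕ)

theorem hm3 (m : ℕ) (hm : (m + 1) * (3 * (w + 1)) ≤ N * (w + 1)) : m < N / 3 := by
  have h1 : (3 * (m + 1)) * (w + 1) ≤ N * (w + 1) := by
    calc (3 * (m + 1)) * (w + 1) = (m + 1) * (3 * (w + 1)) := by ring
      _ ≤ _ := hm
  have := Nat.le_of_mul_le_mul_right h1 (by omega)
  omega

theorem hex (m : ℕ) (v : Fin m → Fin (2 * (N / 3) ^ 2)) (j : ℕ) (hj : j < m) :
    (fun j => if h : j < m then (v ⟨j, h⟩ : ℕ) else 0) j < 2 * (N / 3) ^ 2 := by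
  simp only [hj, dite_true]
  exact (v ⟨j, hj⟩).2

theorem inj_word (hN : 15 ≤ N) (m : ℕ) (hm : m < N / 3) (v : Fin m → Fin (2 * (N / 3) ^ 2)) :
    Function.Injective
      (fun a : Fin N => inst N m (fun j => if h : j < m then (v ⟨j, h⟩ : ℕ) else 0) a) := by
  intro a b hab
  exact Fin.ext (inst_inj N m _ hN hm (hex N m v) a b a.2 b.2 hab)

theorem not_has (hN : 15 ≤ N) (m : ℕ) (hm : m < N / 3) (v : Fin m → Fin (2 * (N / 3) ^ 2))
    (hv : Function.Injective v) : ¬ HasSum (fun a : Fin N => inst N m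
      (fun j => if h : j < m then (v ⟨j, h⟩ : ℕ) else 0) a) := by
  rintro ⟨a, b, c, -, -, -, habc⟩
  obtain ⟨i, j, hi, hj, hij, he⟩ := eq_of_three N m _ hN hm (hex N m v) a b c
    a.2 b.2 c.2 habc
  simp only [hi, hj, dite_true] at he
  exact hij (congrArg Fin.val (hv (Fin.ext he)))

theorem has (m : ℕ) (hm : m < N / 3) (v : Fin m → Fin (2 * (N / 3) ^ 2))
    (hv : ¬ Function.Injective v) : HasSum (fun a : Fin N => inst N m
      (fun j => if h : j < m then (v ⟨j, h⟩ : ℕ) else 0) a) := by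
  have h3 : ∃ i j : Fin m, i < j ∧ v i = v j := by
    unfold Function.Injective at hv
    push Not at hv
    obtain ⟨a, b, hvab, hab⟩ := hv
    rcases lt_or_gt_of_ne hab with h | h
    · exact ⟨a, b, h, hvab⟩
    · exact ⟨b, a, h, hvab.symm⟩
  obtain ⟨i, j, hij, hvij⟩ := h3
  have hij' : (i : ℕ) < j := hij
  have hj := j.2
  refine ⟨⟨3 * i + 1, by omega⟩, ⟨3 * (j - i - 1) + 2, by omega⟩, ⟨3 * j, by omega⟩,
    ?_, ?_, ?_, ?_⟩
  · intro h; have := congrArg Fin.val h; simp only at this; omega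
  · intro h; have := congrArg Fin.val h; simp only at this; omega
  · intro h; have := congrArg Fin.val h; simp only at this; omega
  · apply three_of_eq N m _ i j hij' hj
    simp only [i.2, j.2, dite_true]
    rw [hvij]

end

open Classical in
/-- **Randomized slow heads and 3SUM.** -/
theorem threeSum_rand (N w : ℕ) {k : ℕ} {Ω : Type} [Fintype Ω] (p : Ω → ℝ) (hp : ∀ ω, 0 ≤ p ω)
    (hp1 : ∑ ω, p ω = 1) (P : Ω → DetProg Bool (N * (w + 1)) k) (T S : ℕ) (hk : 1 ≤ k)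
    (hS : ∀ ω, Fintype.card (P ω).Q * (N * (w + 1)) ^ k ≤ 2 ^ S)
    (h : ∀ x : Fin N → ℤ, Function.Injective x → (∀ i, |x i| ≤ (N : ℤ) ^ 3) →
      1 - 1 / 20000 ≤ prob p P T (zword N w x) (decide (HasSum x))) :
    (N * (w + 1)) ^ 3 ≤ 1100000 * (k * (S + 1) * (w + 1) * (k * T + N * (w + 1)) ^ 2) := by
  rcases Nat.lt_or_ge N 15 with hN | hN
  · have h1 : N * (w + 1) ≤ 1100000 * (k * (S + 1) * (w + 1)) := by
      have h2 : 1 ≤ k * (S + 1) := Nat.one_le_iff_ne_zero.mpr (by positivity)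
      calc N * (w + 1) ≤ 1100000 * (w + 1) := Nat.mul_le_mul_right _ (by omega)
        _ = 1100000 * (1 * (w + 1)) := by ring
        _ ≤ 1100000 * (k * (S + 1) * (w + 1)) :=
            Nat.mul_le_mul_left _ (Nat.mul_le_mul_right _ h2)
    calc (N * (w + 1)) ^ 3 = N * (w + 1) * (N * (w + 1)) ^ 2 := by ring
      _ ≤ 1100000 * (k * (S + 1) * (w + 1)) * (k * T + N * (w + 1)) ^ 2 := by gcongr; omega
      _ = _ := by ring
  have hn : 0 < N * (w + 1) := by positivity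
  have hdiv : N * (w + 1) / (3 * (w + 1)) = N / 3 := Nat.mul_div_mul_right N 3 (by omega)
  have hM0 : 0 < N / 3 := by omega
  have h := blocksR3 p hp hp1 (fun ω => (P ω).flip) (3 * (w + 1)) (2 * (N / 3) ^ 2) T S hn
    (by omega) hk (by positivity) (by rw [hdiv])
    (fun m v => ZW N w m v)
    (fun m v v' q hq => ZW_local N w m v v' q hq)
    (by
      intro m hm v hv
      rw [prob_flip]
      have hm' := hm3 N w m hm
      have h1 := h _ (inj_word N hN m hm' v) (fun a => inst_abs N m _ hN hm' (hex N m v) a a.2)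
      rw [decide_eq_false (not_has N hN m hm' v hv)] at h1
      exact h1)
    (by
      intro m hm v hv
      rw [prob_flip]
      have hm' := hm3 N w m hm
      have h1 := h _ (inj_word N hN m hm' v) (fun a => inst_abs N m _ hN hm' (hex N m v) a a.2)
      rw [decide_eq_true (has N m hm' v hv)] at h1
      exact h1)
    (fun ω => hS ω)
  refine h.trans ?_
  calc 342468 * (k * (S + 1) * (3 * (w + 1)) * (k * T + N * (w + 1)) ^ 2)
      = 1027404 * (k * (S + 1) * (w + 1) * (k * T + N * (w + 1)) ^ 2) := by ring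
    _ ≤ 1100000 * (k * (S + 1) * (w + 1) * (k * T + N * (w + 1)) ^ 2) := by gcongr; norm_num

/-- **Nondeterministic slow heads which verify that no number is the sum of two others.** -/
theorem threeSum_nondet (N w : ℕ) {k : ℕ} (P : HeadProg Bool (N * (w + 1)) k) (T S : ℕ)
    (hk : 1 ≤ k) (hS : Fintype.card P.Q * (N * (w + 1)) ^ k ≤ 2 ^ S)
    (hacc : ∀ x : Fin N → ℤ, Function.Injective x → (∀ i, |x i| ≤ (N : ℤ) ^ 3) → ¬ HasSum x →
      P.AcceptsIn T (zword N w x))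
    (hsound : ∀ x : Fin N → ℤ, Function.Injective x → (∀ i, |x i| ≤ (N : ℤ) ^ 3) →
      HasSum x → ¬ P.Accepts (zword N w x)) :
    (N * (w + 1)) ^ 3 ≤ 26000 * (k * (S + 1) * (w + 1) * (k * T + N * (w + 1)) ^ 2) := by
  rcases Nat.lt_or_ge N 15 with hN | hN
  · have h1 : N * (w + 1) ≤ 26000 * (k * (S + 1) * (w + 1)) := by
      have h2 : 1 ≤ k * (S + 1) := Nat.one_le_iff_ne_zero.mpr (by positivity)
      calc N * (w + 1) ≤ 26000 * (w + 1) := Nat.mul_le_mul_right _ (by omega)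
        _ = 26000 * (1 * (w + 1)) := by ring
        _ ≤ 26000 * (k * (S + 1) * (w + 1)) :=
            Nat.mul_le_mul_left _ (Nat.mul_le_mul_right _ h2)
    calc (N * (w + 1)) ^ 3 = N * (w + 1) * (N * (w + 1)) ^ 2 := by ring
      _ ≤ 26000 * (k * (S + 1) * (w + 1)) * (k * T + N * (w + 1)) ^ 2 := by gcongr; omega
      _ = _ := by ring
  have hn : 0 < N * (w + 1) := by positivity
  have hdiv : N * (w + 1) / (3 * (w + 1)) = N / 3 := Nat.mul_div_mul_right N 3 (by omega)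
  have hM0 : 0 < N / 3 := by omega
  have h := blocksN3 P (3 * (w + 1)) (2 * (N / 3) ^ 2) T S hn (by omega) hk
    (by positivity) (by rw [hdiv])
    (fun m v => ZW N w m v)
    (fun m v v' q hq => ZW_local N w m v v' q hq)
    (by
      intro m hm v hv
      have hm' := hm3 N w m hm
      exact hacc _ (inj_word N hN m hm' v)
        (fun a => inst_abs N m _ hN hm' (hex N m v) a a.2) (not_has N hN m hm' v hv))
    (by
      intro m hm v hv
      have hm' := hm3 N w m hm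
      by_contra hni
      exact hsound _ (inj_word N hN m hm' v)
        (fun a => inst_abs N m _ hN hm' (hex N m v) a a.2) (has N m hm' v hni) hv)
    hS
  refine h.trans ?_
  calc 8456 * (k * (S + 1) * (3 * (w + 1)) * (k * T + N * (w + 1)) ^ 2)
      = 25368 * (k * (S + 1) * (w + 1) * (k * T + N * (w + 1)) ^ 2) := by ring
    _ ≤ 26000 * (k * (S + 1) * (w + 1) * (k * T + N * (w + 1)) ^ 2) := by gcongr; norm_num

end Pool.Agent.Q184.TS.SH
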