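import Pool.Agent.Y638.WF.Lower
import Pool.Agent.TH457.Ary.ZeroSum

set_option autoImplicit false

/-! # 3SUM (three numbers with the sum zero) and integral formulas -/

namespace Pool.Agent.Q184.TS.WF

open Finset Pool.Agent.TH697.Form Pool.Agent.TH697.Row Pool.Agent.TH697.Form.ThreeSum
open Pool.Agent.TH457.Ary.ZeroSum Pool.Agent.TH457.Ary.ThreeSum Pool.Agent.Y638.WF

variable {n b c w v : ℕ}

theorem asks (hb : 2 * (b * 2 ^ b) ≤ n) (hn : 400 ≤ n) (i : Fin n) :
    Asks (Fin (n / 2) × Fin b) 0 (Valid n n) (zeroSum n) (some i) := by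
  classical
  refine asks_of (Set.range (fun t : Fin (n / 2) × Fin b => ask n t)) (fun _ => 0)
    (fun t _ => ask n t) (fun z => flip (enc z)) ?_ ?_ ?_ ?_
  · exact fun t z => ⟨t, rfl⟩
  · exact fun t z z' _ => rfl
  · rintro _ ⟨t, rfl⟩ z
    rw [← flip_update]
    exact valid_flip i t z hb hn
  · have h : ∀ (t : Fin (n / 2) × Fin b) (z : Fin (n / 2) × Fin b → Bool),
        zeroSum n (Function.update (flip (enc z)) (some i) (ask n t)) = z t := by
      intro t z
      rw [← flip_update]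
      exact zeroSum_flip i t z hb
    simp only [h, ne_eq, not_true_eq_false, filter_false, card_empty]
    simp

/-- the arithmetic -/
theorem arith {n g c w v N L G Q s : ℝ} (hn : 400 ≤ n) (hg : 8 ≤ g) (hc : 1 ≤ c) (hw : 1 ≤ w)
    (hv : 1 ≤ v) (hN : n * g / 7 ≤ N) (hL : L ≤ 4 / 3 * v * g + 2) (hG : G ≤ 5 / 2 * g)
    (hQ : Q ≤ 4 / 3 * c * g) (hs : 0 ≤ s)
    (h : n * ((49 / 600 - 0) * N - G) ≤ w * (1 + 12 * L + 4 * G + 2 * (w - 1) * Q) * s) :
    n ^ 2 ≤ 6000 * w * (v + c * w) * s := by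
  have h0 : 400 * g ≤ n * g := mul_le_mul_of_nonneg_right hn (by linarith)
  have h1 : n * g / 200 ≤ (49 / 600 - 0) * N - G := by linarith
  have h2 : n * (n * g / 200) ≤ n * ((49 / 600 - 0) * N - G) :=
    mul_le_mul_of_nonneg_left h1 (by linarith)
  have hgv : g ≤ v * g := by nlinarith
  have h3 : w * (1 + 12 * L + 4 * G + 2 * (w - 1) * Q) ≤ 30 * g * (w * (v + c * w)) := by
    have h4 : 2 * (w - 1) * Q ≤ 2 * (w - 1) * (4 / 3 * c * g) :=
      mul_le_mul_of_nonneg_left hQ (by linarith)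
    have h7 : 0 ≤ (w - 1) * (c * g) := by
      apply mul_nonneg (by linarith)
      positivity
    have h8 : g ≤ c * g := by nlinarith
    have h9 : 1 + 12 * L + 4 * G + 2 * (w - 1) * Q ≤ 30 * g * (v + c * w) := by
      have e1 : 30 * g * (v + c * w) = 30 * (v * g) + 30 * (c * g) + 30 * ((w - 1) * (c * g)) := by
        ring
      rw [e1]
      linarith
    calc w * (1 + 12 * L + 4 * G + 2 * (w - 1) * Q) ≤ w * (30 * g * (v + c * w)) :=
          mul_le_mul_of_nonneg_left h9 (by linarith)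
      _ = _ := by ring
  have h4 := mul_le_mul_of_nonneg_right h3 hs
  have h5 : g * n ^ 2 ≤ g * (6000 * w * (v + c * w) * s) := by
    have e1 : n * (n * g / 200) = g * n ^ 2 / 200 := by ring
    have e2 : 30 * g * (w * (v + c * w)) * s = g * (6000 * w * (v + c * w) * s) / 200 := by ring
    rw [e1] at h2
    rw [e2] at h4
    linarith
  exact le_of_mul_le_mul_left h5 (by linarith)

/-- logarithms of small numbers -/
theorem logb_small (hn : 1 ≤ n) (hL : 8 ≤ Nat.log 2 n) :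
    Real.logb 2 (2 * ((2 * n) ^ v : ℕ) + 1) ≤ 4 / 3 * v * Nat.log 2 n + 2 := by
  have h0 := logb_q (n := n) (c := v) hn hL
  have h1 : (1 : ℝ) ≤ (((2 * n) ^ v : ℕ) : ℝ) := by
    exact_mod_cast Nat.one_le_pow v (2 * n) (by omega)
  have h2 : (2 * (((2 * n) ^ v : ℕ) : ℝ) + 1) ≤ (((2 * n) ^ v : ℕ) : ℝ) * 2 ^ 2 := by
    linarith
  refine (Real.logb_le_logb_of_le (by norm_num : (1 : ℝ) < 2) (by positivity) h2).trans ?_
  rw [Real.logb_mul (by positivity) (by positivity), Real.logb_pow,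
    Real.logb_self_eq_one (by norm_num)]
  push_cast at h0 ⊢
  linarith

theorem bound (hn : 400 ≤ n) (hc : 1 ≤ c) (hw : 1 ≤ w) (hv : 1 ≤ v) {Ω : Type} [Fintype Ω]
    (μ : Ω → ℝ) (hμ : IsProb μ) (s : ℕ)
    (F : Ω → Program (Option (Fin n)) (Item n n) w ((2 * n) ^ c) ((2 * n) ^ v) (Valid n n) s)
    (hF : ApproximatesOn μ (fun ω => (F ω).eval) (Valid n n) (zeroSum n)) :
    (n : ℝ) ^ 2 ≤ 6000 * w * (v + c * w) * s := by
  classical
  have hw' : (1 : ℝ) ≤ w := by exact_mod_cast hw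
  have hc' : (1 : ℝ) ≤ c := by exact_mod_cast hc
  have hv' : (1 : ℝ) ≤ v := by exact_mod_cast hv
  have hs0 : (0 : ℝ) ≤ s := Nat.cast_nonneg s
  by_cases hsn : n ^ 2 ≤ s
  · have h1 : (n : ℝ) ^ 2 ≤ s := by exact_mod_cast hsn
    have h3 : (0 : ℝ) ≤ c * w := by positivity
    have h2 : (1 : ℝ) ≤ w * (v + c * w) := one_le_mul_of_one_le_of_one_le hw' (by linarith)
    nlinarith
  obtain ⟨b, hb, hL, hb2⟩ := Pool.Agent.TH457.Ary.ThreeSum.params hn
  have h := program_lower μ hμ ((2 * n) ^ v) s (Valid n n) F (zeroSum n) hF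
    (Nat.one_le_pow _ _ (by omega)) (Nat.one_le_pow _ _ (by omega)) hw 0
    ((univ : Finset (Fin n)).map Function.Embedding.some) (T := Fin (n / 2) × Fin b) (by
      intro a ha
      rw [mem_map] at ha
      obtain ⟨i, -, rfl⟩ := ha
      exact asks hb hn i)
  rw [card_map, card_univ, Fintype.card_fin] at h
  exact arith (by exact_mod_cast hn) (by exact_mod_cast hL) hc' hw' hv' (card_T hn hb2)
    (logb_small (by omega) hL) (logb_s (by omega) hL (by omega)) (logb_q (by omega) hL) hs0 h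

end Pool.Agent.Q184.TS.WF
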