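import Mathlib
import Pool.Agent.Y631.WcSum

set_option autoImplicit false

/-!
# Word circuits: three numbers with the sum zero
-/

open Finset

namespace Pool.Agent.Q184.TS.Wc

open Pool.Agent.Y631.Wc

/-- Three of the integers have the sum zero. -/
def HasZero {n : ℕ} (x : Fin n → ℤ) : Prop :=
  ∃ i j l, i ≠ j ∧ i ≠ l ∧ j ≠ l ∧ x i + x j + x l = 0

/-- The number at a place (`W = q k`). -/
def numz {k q : ℕ} (W m : ℕ) (a b : Fin k → Fin q) (i : ℕ) : Option (Fin k ⊕ Fin k ⊕ Unit) → ℤ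
  | none => ((7 * i + 3 : ℕ) : ℤ)
  | some (Sum.inl j) => ((7 * (q * j.1 + (a j).1) + 1 : ℕ) : ℤ)
  | some (Sum.inr (Sum.inl j)) => -((7 * (W + m + 1 + (q * j.1 + (b j).1)) + 1 : ℕ) : ℤ)
  | some (Sum.inr (Sum.inr _)) => ((7 * (W + m + 1) : ℕ) : ℤ)

theorem inst_zero {m k q : ℕ} (X1 X2 A E : Finset (Fin m)) (hX : Disjoint X1 X2) (hA : A ⊆ X1)
    (hE : E ⊆ X2) (hkA : k ≤ A.card) (hkE : k ≤ E.card) (hk : 2 * k ≤ X1.card) (hk1 : 1 ≤ k)
    (hn : 14 * (q * k) + 7 * m + 8 ≤ m ^ 3) :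
    HasInst (fun x : Fin m → ℤ => ¬ HasZero x) IsSet k q A E := by
  classical
  obtain ⟨σ, s1, s2, s3, s4⟩ := places1 X1 X2 A E hX hA hE hkA hkE hk hk1
  obtain ⟨W, hW⟩ : ∃ W, W = q * k := ⟨_, rfl⟩
  have hlt : ∀ (j : Fin k) (u : Fin q), q * j.1 + u.1 < W := fun j u => by
    rw [hW]
    exact code_lt j u
  refine ⟨fun a b i => numz W m a b i.1 (σ i), ?_, ?_, ?_, ?_⟩
  · intro a b b' i hi
    rcases h : σ i with _ | (j | j | j)
    · simp only [numz, h]
    · simp only [numz, h]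
    · exact absurd (s2 i j h) hi
    · simp only [numz, h]
  · intro a a' b i hi
    rcases h : σ i with _ | (j | j | j)
    · simp only [numz, h]
    · exact absurd (s1 i j h) hi
    · simp only [numz, h]
    · simp only [numz, h]
  · intro a b
    refine ⟨?_, fun i => ?_⟩
    · intro i i' hii
      have hi := i.2
      have hi' := i'.2
      rcases h : σ i with _ | (j | j | j) <;> rcases h' : σ i' with _ | (j' | j' | j') <;>
        simp only [numz, h, h'] at hii
      · exact Fin.ext (by omega)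
      all_goals try (have := hlt j (a j))
      all_goals try (have := hlt j (b j))
      all_goals try (have := hlt j' (a j'))
      all_goals try (have := hlt j' (b j'))
      all_goals try omega
      · have h3 : q * j.1 + (a j).1 = q * j'.1 + (a j').1 := by omega
        obtain ⟨h4, -⟩ := code_inj h3
        subst h4
        exact s4 _ _ _ h h'
      · have h3 : q * j.1 + (b j).1 = q * j'.1 + (b j').1 := by omega
        obtain ⟨h4, -⟩ := code_inj h3
        subst h4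
        exact s4 _ _ _ h h'
      · exact s4 _ _ _ h h'
    · obtain ⟨V, hV⟩ : ∃ V, V = m ^ 3 := ⟨_, rfl⟩
      have hV' : (m : ℤ) ^ 3 = V := by rw [hV]; push_cast; ring
      have hi := i.2
      rw [← hW, ← hV] at hn
      show |numz W m a b i.1 (σ i)| ≤ (m : ℤ) ^ 3
      rw [hV', abs_le]
      rcases h : σ i with _ | (j | j | j) <;> simp only [numz]
      · omega
      · have := hlt j (a j)
        omega
      · have := hlt j (b j)
        omega
      · omega
  · intro a b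
    constructor
    · intro hF j hj
      apply hF
      obtain ⟨i0, h0⟩ := s3 (Sum.inl j)
      obtain ⟨i1, h1⟩ := s3 (Sum.inr (Sum.inl j))
      obtain ⟨i2, h2⟩ := s3 (Sum.inr (Sum.inr ()))
      refine ⟨i0, i2, i1, ?_, ?_, ?_, ?_⟩
      · rintro rfl
        rw [h0] at h2
        simp at h2
      · rintro rfl
        rw [h0] at h1
        simp at h1
      · rintro rfl
        rw [h1] at h2
        simp at h2
      · simp only [numz, h0, h1, h2, hj]
        push_cast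
        ring
    · rintro hab ⟨i0, i1, i2, d1, d2, d3, h⟩
      have h' : numz W m a b i0.1 (σ i0) + numz W m a b i1.1 (σ i1) + numz W m a b i2.1 (σ i2)
          = 0 := h
      have hi0 := i0.2
      have hi1 := i1.2
      have hi2 := i2.2
      rcases g0 : σ i0 with _ | (j0 | j0 | j0) <;> rcases g1 : σ i1 with _ | (j1 | j1 | j1) <;>
        rcases g2 : σ i2 with _ | (j2 | j2 | j2) <;>
        simp only [numz, g0, g1, g2] at h'
      all_goals try (have := hlt j0 (a j0))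
      all_goals try (have := hlt j0 (b j0))
      all_goals try (have := hlt j1 (a j1))
      all_goals try (have := hlt j1 (b j1))
      all_goals try (have := hlt j2 (a j2))
      all_goals try (have := hlt j2 (b j2))
      all_goals try omega
      all_goals first
        | exact d1 (s4 _ _ _ g0 g1)
        | exact d2 (s4 _ _ _ g0 g2)
        | exact d3 (s4 _ _ _ g1 g2)
        | (have h3 : q * j0.1 + (a j0).1 = q * j1.1 + (b j1).1 := by omega
           obtain ⟨h4, h5⟩ := code_inj h3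
           subst h4
           exact hab _ h5)
        | (have h3 : q * j1.1 + (a j1).1 = q * j0.1 + (b j0).1 := by omega
           obtain ⟨h4, h5⟩ := code_inj h3
           subst h4
           exact hab _ h5)
        | (have h3 : q * j0.1 + (a j0).1 = q * j2.1 + (b j2).1 := by omega
           obtain ⟨h4, h5⟩ := code_inj h3
           subst h4
           exact hab _ h5)
        | (have h3 : q * j2.1 + (a j2).1 = q * j0.1 + (b j0).1 := by omega
           obtain ⟨h4, h5⟩ := code_inj h3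
           subst h4
           exact hab _ h5)
        | (have h3 : q * j1.1 + (a j1).1 = q * j2.1 + (b j2).1 := by omega
           obtain ⟨h4, h5⟩ := code_inj h3
           subst h4
           exact hab _ h5)
        | (have h3 : q * j2.1 + (a j2).1 = q * j1.1 + (b j1).1 := by omega
           obtain ⟨h4, h5⟩ := code_inj h3
           subst h4
           exact hab _ h5)

/-- **3SUM.** -/
theorem zero_bounds {r κ θ m q L : ℕ} (hr : 1 ≤ r) (hq : 2 ≤ q) (hqL : q ≤ L) (hqm : q ≤ m)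
    {Z : Type} [Fintype Z] (hZ : Fintype.card Z ≤ L)
    (C : WCirc (Fin m) ℤ Z) (hκ : C.FanIn κ) (hθ : C.TreewidthLE θ)
    (hR : C.reads ≤ r * m) :
    ((∀ x, IsSet x → (C.Accepts x ↔ ¬ HasZero x)) →
      2 ^ (m / 2 ^ (24 * r + 1)) ≤ L ^ (10000 * r ^ 2 * (κ + 1) * (θ + 1))) ∧
    (C.Unambiguous → (∀ x, IsSet x → (C.Accepts x ↔ ¬ HasZero x)) →
      q ^ (m / 2 ^ (24 * r + 1)) ≤ L ^ (10000 * r ^ 2 * (κ + 1) * (θ + 1))) ∧
    (C.Unambiguous → (∀ x, IsSet x → (C.Accepts x ↔ HasZero x)) →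
      q ^ (m / 2 ^ (24 * r + 1)) ≤ L ^ (10000 * r ^ 2 * (κ + 1) * (θ + 1)) + 1) := by
  classical
  obtain ⟨k, hk⟩ : ∃ k, k = m / 2 ^ (24 * r + 1) := ⟨_, rfl⟩
  rw [← hk]
  by_cases hk0 : k = 0
  · rw [hk0]
    have h1 : 1 ≤ L ^ (10000 * r ^ 2 * (κ + 1) * (θ + 1)) := Nat.one_le_pow _ _ (by omega)
    exact ⟨fun _ => by simpa using h1, fun _ _ => by simpa using h1,
      fun _ _ => by simp⟩
  obtain ⟨h1, h2, h3, h4⟩ := numbers hr hk hk0
  obtain ⟨X1, X2, hX, hX1, hX2⟩ := halves m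
  have hsize : 14 * (q * k) + 7 * m + 8 ≤ m ^ 3 := by
    have h5 : q * k ≤ m * m := Nat.mul_le_mul hqm (by omega)
    have h6 : 24 ≤ m := by omega
    have h7 : m ^ 3 = m * m * m := by ring
    have h8 : 24 * (m * m) ≤ m * m * m := by
      calc 24 * (m * m) = m * m * 24 := by ring
        _ ≤ m * m * m := Nat.mul_le_mul_left _ h6
    have h9 : 24 * m ≤ m * m := Nat.mul_le_mul_right _ h6
    omega
  have h5 := bounds C hr hκ hθ hR X1 X2 hX hX1 hX2 h1 h2 rfl h3 hq hqL hZ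
    (fun x : Fin m → ℤ => ¬ HasZero x) IsSet
    (fun A hA E hE hkA hkE => inst_zero X1 X2 A E hX hA hE hkA hkE (by omega) (by omega) hsize)
  refine ⟨h5.1, h5.2.1, fun hU hC => h5.2.2 hU (fun x hx => ?_)⟩
  rw [hC x hx, not_not]

theorem zero_superlinear (c κ : ℕ) (ε : ℝ) (hε : 0 < ε) (hε1 : ε ≤ 1) : ∃ m₀ : ℕ,
    ∀ m ≥ m₀, ∀ (Z : Type) [Fintype Z], Fintype.card Z ≤ m ^ c →
      ∀ (C : WCirc (Fin m) ℤ Z) (θ : ℕ), C.FanIn κ → C.TreewidthLE θ →
        (θ : ℝ) ≤ (m : ℝ) ^ (1 - ε) → C.Unambiguous →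
        ((∀ x, IsSet x → (C.Accepts x ↔ HasZero x)) ∨
          (∀ x, IsSet x → (C.Accepts x ↔ ¬ HasZero x))) →
        ε / 30 * (m * Real.logb 2 m) ≤ C.reads := by
  obtain ⟨m₀, h2, hm₀⟩ := superlinear c κ ε hε hε1
  refine ⟨m₀, fun m hm Z _ hZ C θ hκ hθ hθm hU hC => hm₀ m hm _ θ hθm fun r hr hR => ?_⟩
  have hm1 : 1 ≤ m := by omega
  have hL : m ≤ m ^ (c + 1) := by
    calc m = m ^ 1 := (pow_one m).symm
      _ ≤ m ^ (c + 1) := Nat.pow_le_pow_right hm1 (by omega)
  have hZ2 : Fintype.card Z ≤ m ^ (c + 1) :=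
    hZ.trans (Nat.pow_le_pow_right hm1 (by omega))
  have h3 := zero_bounds (q := m) (L := m ^ (c + 1)) hr (by omega) hL le_rfl hZ2 C hκ
    hθ hR
  rcases hC with hC | hC
  · exact h3.2.2 hU hC
  · exact (h3.2.1 hU hC).trans (Nat.le_succ _)

/-- Random circuits that are always correct. -/
theorem zero_random (c κ : ℕ) (ε : ℝ) (hε : 0 < ε) (hε1 : ε ≤ 1) : ∃ m₀ : ℕ,
    ∀ m ≥ m₀, ∀ (Z : Type) [Fintype Z], Fintype.card Z ≤ m ^ c →
      ∀ (Ω : Type) [Fintype Ω] (p : Ω → ℝ), (∀ ω, 0 ≤ p ω) → ∑ ω, p ω = 1 →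
      ∀ (C : Ω → WCirc (Fin m) ℤ Z) (θ : ℕ), (θ : ℝ) ≤ (m : ℝ) ^ (1 - ε) →
        (∀ ω, (C ω).FanIn κ ∧ (C ω).TreewidthLE θ ∧ (C ω).Unambiguous ∧
          ((∀ x, IsSet x → ((C ω).Accepts x ↔ HasZero x)) ∨
            (∀ x, IsSet x → ((C ω).Accepts x ↔ ¬ HasZero x)))) →
        ε / 30 * (m * Real.logb 2 m) ≤ ∑ ω, p ω * (C ω).reads := by
  obtain ⟨m₀, hm₀⟩ := zero_superlinear c κ ε hε hε1
  refine ⟨m₀, fun m hm Z _ hZ Ω _ p hp hp1 C θ hθm h => ?_⟩
  calc ε / 30 * (m * Real.logb 2 m) = ∑ ω, p ω * (ε / 30 * (m * Real.logb 2 m)) := by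
        rw [← Finset.sum_mul, hp1, one_mul]
    _ ≤ ∑ ω, p ω * (C ω).reads := by
        apply Finset.sum_le_sum
        intro ω _
        apply mul_le_mul_of_nonneg_left _ (hp ω)
        obtain ⟨h1, h2, h3, h4⟩ := h ω
        exact hm₀ m hm Z hZ (C ω) θ h1 h2 hθm h3 h4

end Pool.Agent.Q184.TS.Wc
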